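import Pool.Agent.Helper13.RM.Perf

/-!
# The Tate conjecture, dimension by dimension and codimension by codimension, and configurations of points
in the plane

Let `k` be a prime field (`ℚ` or the field with `p` elements), and `ℓ` a prime that is invertible in `k`.
For a separated scheme `X` of finite type over `k` let `W(X)` be its weight complex (Gillet, Soulé), a
bounded complex of Chow motives, with `W(X) = h(X)` for smooth projective `X`; the coefficients are `ℤ` for
`k = ℚ` and `ℤ[1/p]` in characteristic `p` (Bondarko, Kelly). Let `A^r(M)` be the image of the group of
cycles of codimension `r` in the `ℓ`-adic cohomology `H^{2r}(M)(r)` of a Chow motive `M`, and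
`T^r(M) = H^{2r}(M)(r)^{Gal(k)}` the space of Tate classes. We fix the codimension `r`, and put for `i ∈ ℤ`

* `N_i(X) = H^i(A^r(W(X)))`, a module over `E' = ℤ` (`k = ℚ`) or `E' = ℤ[1/p]`;
* `A_i(X) = H^i(A^r(W(X)) ⊗ ℚ_ℓ)`, and `B_i(X) = H^i(T^r(W(X)))`.

The cycle class gives maps `A_i(X) → B_i(X)`. For smooth projective `X` the groups with `i ≠ 0` are zero, and
for `i = 0` this is the group `A^r(X)` and the map `A^r(X) ⊗ ℚ_ℓ → H^{2r}(X)(r)^{Gal(k)}` of the conjecture
of Tate. So `Tate C N X` (all `N_i(X)` are finitely generated, and all the maps `A_i(X) → B_i(X)` are
bijective) is the conjecture of Tate for `X` in the codimension `r` if `X` is smooth and projective. (If one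
takes `N = 0` then it is the statement that the maps are bijective.)

The only facts about these groups which are used are the hypotheses: isomorphism invariance and long exact
sequences of closed-open pairs (`IsLong`, `IsLongOne`), the trivial case of the point, and that smooth
projective schemes of dimension at most `d` generate (`BijDim`, `FinGenDim`): the weight complex of `X`
consists of direct factors of motives of smooth projective schemes whose dimension is at most the dimension
of `X`. All this is proved by Gillet and Soulé, and in characteristic `p` it follows from the alterations of
de Jong and Gabber.

A matroid `M` of rank three on the set `Fin 4 ⊕ Fin n` is **framed** if any three of the four elements of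
`Fin 4` form a base; it is **simple** if any two elements are independent. Let `modS k M` be the moduli space
of the configurations of `n + 4` different points in the projective plane in which exactly the triples
prescribed by `M` are collinear, modulo projective transformations. In coordinates: the first four points
are the points of `e_1, e_2, e_3, e_1 + e_2 + e_3`, and the other ones have normalised coordinates
`v_k = (x, y, 1)` or `(x, 1, 0)`; three vectors have an invertible determinant if they are a base of `M`, and
the determinant zero otherwise. Over a finite field with `q` elements the number of points of `modS k M` is
the number of representations of the matroid `M` up to equivalence.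

**Theorem.** (1) For each separated scheme `X` of finite type over `k` there is a finite list of simple
framed matroids `M_1, …, M_s` of rank three, whose moduli spaces are integral, smooth and of dimension at most
`dim X` (`SmoothMod`), such that `Tate C N X` is true if it is true for `modS k M_1, …, modS k M_s`. The list
depends only on `X`: it is the same for all primes `ℓ`, all codimensions `r` and all theories `C`, `N`.

(2) For each natural number `d` the following statements are equivalent.

* The conjecture of Tate in the codimension `r` for all smooth projective schemes over `k` of dimension at
  most `d`.
* `Tate C N X` for all separated schemes `X` of finite type over `k` and of dimension at most `d`.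
* `Tate C N X` for the moduli spaces `X = modS k M` of dimension at most `d` which are integral and smooth
  over `k`, for the simple framed matroids `M` of rank three.

(3) The statements without bounds for the dimensions are equivalent, too.

For example the conjecture of Tate for divisors on surfaces over `𝔽_p` is a statement on the smooth
surfaces `modS 𝔽_p M`, that is, on two-parameter families of configurations of points and lines.

In the background is the following theorem on arbitrary properties of schemes over `ℤ` or a prime field,
without any hypotheses on cohomology (`Pool.Agent.Helper13.RM`: `onMod`, `exists_open_mod`, `config_list`):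
every point of a scheme `X` of finite type lies on an immersed moduli space `modS M`, every integral scheme
contains some `modS M` as an open subscheme, and `X` is decomposed by a finite sequence of closed-open
decompositions into schemes that are isomorphic to smooth integral moduli spaces `modS M`, `M` simple; so a
property `P` such that `P(Z)` and `P(X ∖ Z)` imply `P(X)` is true for all schemes of dimension at most `d` if it is
true for the smooth integral moduli spaces `modS M` of dimension at most `d`. The universality theorem of
Mnëv (in the versions of Sturmfels, Lafforgue, Vakil) gives realization spaces that are open in `X × 𝔸^N`,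
so that the dimension is not preserved and the complement has to be treated; here `X` itself is decomposed.
The reductions to cubic hypersurfaces or graph hypersurfaces (which are in the library, resp. by Belkale
and Brosnan for the localized Grothendieck ring) do not preserve the dimension, and they need affine bundles,
products with `𝔾_m` and all three of the two-out-of-three properties.

Proof: a system of polynomial equations is isomorphic to a system of equations `t_j = t_i + t_k`,
`t_i = t_j t_k`, `t_i = 1`; for such a system the points `(t_i : 0 : 1)`, `(t_i : 1 : 1)`, `(t_i : 1 : 0)`,
`(0 : -t_i : 1)`, `(1 : 1 : 0)` are tied to each other by constructions of von Staudt which work for all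
values of the `t_i`, also for the degenerate ones. The scheme of the solutions is decomposed according to the
matroid of all these points together with the frame; a stratum is isomorphic to the space of normalised
configurations with this matroid, and points that coincide are removed.
-/

set_option autoImplicit false

open AlgebraicGeometry Pool.Agent.Y116.UV Pool.Agent.Z125.UN Pool.Agent.Q193.LT
  Pool.Agent.Helper3.GU Pool.Agent.Helper13.RM

universe v w w1 w2

namespace Pool.Agent.Results.MP_0fca13_ag.RankThreeMatroids

/-- The shift `i ↦ i + 1`. -/
def shift : ℤ ≃ ℤ := Equiv.addRight 1

/-- The conjecture of Tate for the weight complex of `X` in one codimension: the groups `N_i(X)` of cycles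
modulo homological equivalence are finitely generated, and the cycle class maps `A_i(X) → B_i(X)` are
bijective. -/
def Tate {k : Type} [Field k] {E : Type v} [CommRing E] {E' : Type w1} [CommRing E']
    (C : PairData.{w} k ℤ E) (N : ℤ → Sch k → ModuleCat.{w2} E') (X : Sch k) : Prop :=
  FinGen N X ∧ BijAll C X

/-- The properties of the theories `C` and `N`: isomorphism invariance and long exact sequences of
closed-open pairs, and `Tate C N` for the point. -/
structure IsTheory {k : Type} [Field k] {E : Type v} [CommRing E] {E' : Type w1} [CommRing E']
    (C : PairData.{w} k ℤ E) (N : ℤ → Sch k → ModuleCat.{w2} E') : Prop where
  long : IsLong C shift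
  longOne : IsLongOne N shift
  point : Tate C N (aff k k)

/-- **The Tate conjecture and planar configurations, in each dimension and codimension.** See the
explanations above. `Frac k` says that every element of `k` is a quotient of integers. -/
theorem result {k : Type} [Field k] (hk : Frac k) :
    (∀ X : Sch k, FT True X →
      ∃ L : List Mat, (∀ M ∈ L, SmoothMod k (topologicalKrullDim X.left) M.2) ∧
        ∀ (E : Type v) [CommRing E] (C : PairData.{w} k ℤ E) (E' : Type w1) [CommRing E']
          [IsNoetherianRing E'] (N : ℤ → Sch k → ModuleCat.{w2} E'), IsTheory C N →
          (∀ M ∈ L, Tate C N (modS k M.2)) → Tate C N X) ∧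
    ∀ (E : Type v) [CommRing E] (C : PairData.{w} k ℤ E) (E' : Type w1) [CommRing E']
      [IsNoetherianRing E'] (N : ℤ → Sch k → ModuleCat.{w2} E'), IsTheory C N →
      BijDim C → FinGenDim N →
        (∀ d : ℕ, List.TFAE [∀ Y : Sch k, SmoothProj Y → DimAt Y d → Tate C N Y,
          ∀ X : Sch k, FT True X → DimAt X d → Tate C N X,
          ∀ (n : ℕ) (M : Matroid (Fin 4 ⊕ Fin n)), SmoothMod k d M → Tate C N (modS k M)]) ∧
        List.TFAE [∀ Y : Sch k, SmoothProj Y → Tate C N Y,
          ∀ X : Sch k, FT True X → Tate C N X,
          ∀ (d n : ℕ) (M : Matroid (Fin 4 ⊕ Fin n)), SmoothMod k d M → Tate C N (modS k M)] := by
  have hpf := perfect_of_frac hk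
  refine ⟨fun X hX => ?_, fun E _ C E' _ _ N h gC gN =>
    config_fin_smooth hk h.long gC h.point.2 h.longOne gN h.point.1⟩
  obtain ⟨L, hL, hP⟩ := config_list (presents_frac hk) X hX
  exact ⟨L, hL, fun E _ C E' _ _ N h hM =>
    hP _ (cut_and (cut_finGen h.longOne h.point.1) (cut_pair h.long h.point.2)) hM⟩

end Pool.Agent.Results.MP_0fca13_ag.RankThreeMatroids
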